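import Pool.Agent.V11324.NS.StepFin

/-!
# The crossings of all slabs by the n-step self-avoiding walk on the honeycomb lattice are even

For the uniform `n`-step self-avoiding walk on the honeycomb lattice (unit edge length) the following
holds with probability at least `1 - exp (-s (log n)^2)`, simultaneously for the three edge
directions `e` and for all slabs orthogonal to `e`, of all heights `H ≥ 1` and at all places: every
piece of the walk which crosses the slab (upwards or downwards) and stays in it has a width (extent
orthogonal to `e`) which is larger than `H / (C s (log n)^2)` and at most `C s (log n)^2 H`.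

So, up to the factor `C s (log n)^2`, in an edge direction no piece of the walk is thinner than it is
long, and no piece crawls between two lines orthogonal to an edge direction further than their
distance.
-/

set_option autoImplicit false

namespace Pool.Agent.Results.MP_b440f6_pr.EvenCrossings

/-- Adjacency in the honeycomb lattice (brick-wall model), as in the frozen statement. -/
def Nbr (p q : ℤ × ℤ) : Prop :=
  (p.2 = q.2 ∧ (p.1 - q.1 = 1 ∨ q.1 - p.1 = 1)) ∨
    (p.1 = q.1 ∧ ((q.2 = p.2 + 1 ∧ Even (p.1 + p.2)) ∨ (p.2 = q.2 + 1 ∧ Even (q.1 + q.2))))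

/-- The self-avoiding walks with `n` steps from the origin, as lists of vertices. -/
def Walks (n : ℕ) : Set (List (ℤ × ℤ)) :=
  {l | l.length = n + 1 ∧ l.head? = some (0, 0) ∧ l.Nodup ∧ l.IsChain Nbr}

/-- The position of the vertices in the plane: the honeycomb lattice with unit edge length (`Nbr p q`
if and only if the points `emb p` and `emb q` have distance `1`). -/
noncomputable def emb (v : ℤ × ℤ) : ℂ :=
  ⟨Real.sqrt 3 / 2 * v.1, 3 / 2 * v.2 + if Even (v.1 + v.2) then 1 / 2 else 0⟩

/-- The three edge directions: the edges from an even vertex (`v.1 + v.2` even) to an odd vertex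
are the vectors `e₀`, `e₁`, `e₂`. -/
noncomputable def e₀ : ℂ := ⟨Real.sqrt 3 / 2, -1 / 2⟩

/-- The second edge direction. -/
noncomputable def e₁ : ℂ := ⟨0, 1⟩

/-- The third edge direction. -/
noncomputable def e₂ : ℂ := ⟨-(Real.sqrt 3 / 2), -1 / 2⟩

/-- The height of `v` in the direction `e`, that is, the scalar product of `emb v` and `e`. -/
noncomputable def height (e : ℂ) (v : ℤ × ℤ) : ℝ := ((starRingEnd ℂ) e * emb v).re

/-- The coordinate of `v` in the direction orthogonal to `e`. -/
noncomputable def lat (e : ℂ) (v : ℤ × ℤ) : ℝ := ((starRingEnd ℂ) e * emb v).im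

/-- `m` is an upward crossing of a slab of height `H` orthogonal to `e`: it starts at an odd vertex `x`
in the bottom line of the slab, ends at an even vertex `y` in the top line of the slab and stays in
the slab. (A path which stays between the heights of its two ends becomes such a crossing after
removal of at most its first and its last edge.) -/
def Cross (e : ℂ) (m : List (ℤ × ℤ)) (H : ℝ) : Prop :=
  ∃ x y : ℤ × ℤ, m.head? = some x ∧ m.getLast? = some y ∧ Odd (x.1 + x.2) ∧ Even (y.1 + y.2) ∧
    (∀ v ∈ m, height e x ≤ height e v ∧ height e v ≤ height e y) ∧ height e y - height e x = H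

/-- The width (extent orthogonal to `e`) of `m` is at most `c`. -/
def WidthLE (e : ℂ) (m : List (ℤ × ℤ)) (c : ℝ) : Prop := ∀ p ∈ m, ∀ q ∈ m, lat e p - lat e q ≤ c

/-- The walk `l` has a piece `m` which crosses, upwards or downwards, a slab of height `H ≥ 1`
orthogonal to `e` and whose width is at most `H / w` or larger than `w H`. -/
def Uneven (e : ℂ) (w : ℝ) (l : List (ℤ × ℤ)) : Prop :=
  ∃ (l₁ m l₂ : List (ℤ × ℤ)) (H : ℝ), l = l₁ ++ m ++ l₂ ∧ (Cross e m H ∨ Cross e m.reverse H) ∧
    1 ≤ H ∧ (WidthLE e m (H / w) ∨ ¬ WidthLE e m (w * H))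

/-- **Theorem.** There is `C > 0` such that for all `n ≥ 2` and `s ≥ 1` the proportion of the `n`-step
self-avoiding walks on the honeycomb lattice which, in one of the three edge directions, have an
uneven crossing of a slab, with the factor `C s (log n)^2`, is at most `exp (-s (log n)^2)`. -/
theorem result : ∃ C : ℝ, 0 < C ∧ ∀ n s : ℕ, 2 ≤ n → 1 ≤ s →
    ({l | l ∈ Walks n ∧ ∃ e : ℂ, (e = e₀ ∨ e = e₁ ∨ e = e₂) ∧
      Uneven e (C * s * Real.log n ^ 2) l}.ncard : ℝ) ≤
      Real.exp (-(s * Real.log n ^ 2)) * (Walks n).ncard :=
  Pool.Agent.V11324.NS.main2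

end Pool.Agent.Results.MP_b440f6_pr.EvenCrossings
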