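import Pool.Agent.H315.HexS.Len

/-!
The number of steps of the critical self-avoiding walk crossing a strip of height `T` of the
honeycomb lattice has an exponential tail on the scale `T²`; the number of crossings with `n`
steps is at most `62 T μ^(n+1) exp (-n / (36 T²))`.
-/

set_option autoImplicit false

namespace Pool.Agent.Results.MP_b440f6_pr.LengthOfCrossings

open scoped ENNReal

/-- Adjacency in the honeycomb lattice (brick-wall model), as in the frozen statement. -/
def Nbr (p q : ℤ × ℤ) : Prop :=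
  (p.2 = q.2 ∧ (p.1 - q.1 = 1 ∨ q.1 - p.1 = 1)) ∨
    (p.1 = q.1 ∧ ((q.2 = p.2 + 1 ∧ Even (p.1 + p.2)) ∨ (p.2 = q.2 + 1 ∧ Even (q.1 + q.2))))

/-- The self-avoiding trajectories from `a` to `b` in `D`, as lists of vertices. -/
def Traj (D : Set (ℤ × ℤ)) (a b : ℤ × ℤ) : Set (List (ℤ × ℤ)) :=
  {l | l.head? = some a ∧ l.getLast? = some b ∧ l.Nodup ∧ l.IsChain Nbr ∧ ∀ p ∈ l, p ∈ D}

/-- The critical fugacity `1 / μ`. -/
noncomputable def xc : ℝ≥0∞ := ENNReal.ofReal (1 / Real.sqrt (2 + Real.sqrt 2))

/-- The critical partition function: the sum of `xc ^ (number of steps)` over the trajectories. -/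
noncomputable def Z (D : Set (ℤ × ℤ)) (a b : ℤ × ℤ) : ℝ≥0∞ :=
  ∑' l : Traj D a b, xc ^ (l.1.length - 1)

/-- The strip with `2 T` levels; `(1, 0)` is on the first level and the vertices of the last level
are the vertices `(2 T + x, x)`. -/
def Strip (T : ℕ) : Set (ℤ × ℤ) := {p | 1 ≤ p.1 - p.2 ∧ p.1 - p.2 ≤ 2 * T}

/-- The critical partition function of the walks crossing the strip, from `(1, 0)` to any vertex
of the last level. -/
noncomputable def B (T : ℕ) : ℝ≥0∞ := ∑' x : ℤ, Z (Strip T) (1, 0) (2 * T + x, x)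

/-- The probability, under the critical measure on the walks crossing the strip of height `T`,
that the walk has at least `n` steps. -/
noncomputable def P (n T : ℕ) : ℝ≥0∞ :=
  (∑' x : ℤ, ∑' l : {l // l ∈ Traj (Strip T) (1, 0) (2 * T + x, x) ∧ n + 1 ≤ l.length},
    xc ^ (l.1.length - 1)) / B T

/-- The number of walks with `n` steps crossing the strip of height `T` from `(1, 0)`. -/
noncomputable def b (T n : ℕ) : ℕ :=
  {l | ∃ x : ℤ, l ∈ Traj (Strip T) (1, 0) (2 * T + x, x) ∧ l.length = n + 1}.ncard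

/-- **Theorem.** For all `T ≥ 1` and `n`: the critical self-avoiding walk crossing the strip of
height `T` has at least `n` steps with probability at most `62 T exp (-n / (36 T²))`, and the number
of crossings with `n` steps is at most `62 T μ^(n+1) exp (-n / (36 T²))`, `μ = √(2 + √2)`. -/
theorem result (T n : ℕ) (hT : 1 ≤ T) :
    P n T ≤ ENNReal.ofReal (62 * T * Real.exp (-(n / (36 * (T : ℝ) ^ 2)))) ∧
    (b T n : ℝ) ≤ 62 * T * Real.sqrt (2 + Real.sqrt 2) ^ (n + 1) *
      Real.exp (-(n / (36 * (T : ℝ) ^ 2))) :=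
  ⟨Pool.Agent.H315.HexS.PL_le n T hT, Pool.Agent.H315.HexS.count_le T n hT⟩

end Pool.Agent.Results.MP_b440f6_pr.LengthOfCrossings
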