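import Pool.Agent.H315.HexS.Lower

/-!
Self-avoiding walks on the honeycomb lattice confined to a strip of width `h`: two-sided bounds
for the probability that the uniform `n`-step walk stays in a strip of width `h`, and for the
connective constants `ν h` of the strips: `1 / (100 h²) ≤ log (μ / ν h) ≤ K (log h)² / h`.
-/

set_option autoImplicit false

namespace Pool.Agent.Results.MP_b440f6_pr.StripConnectiveConstants

open Filter Topology

/-- Adjacency in the honeycomb lattice (brick-wall model), as in the frozen statement. -/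
def Nbr (p q : ℤ × ℤ) : Prop :=
  (p.2 = q.2 ∧ (p.1 - q.1 = 1 ∨ q.1 - p.1 = 1)) ∨
    (p.1 = q.1 ∧ ((q.2 = p.2 + 1 ∧ Even (p.1 + p.2)) ∨ (p.2 = q.2 + 1 ∧ Even (q.1 + q.2))))

/-- The set of `n`-step self-avoiding walks from the origin. -/
def walks (n : ℕ) : Set (Fin (n + 1) → ℤ × ℤ) :=
  {ω | ω 0 = (0, 0) ∧ Function.Injective ω ∧ ∀ i : Fin n, Nbr (ω i.castSucc) (ω i.succ)}

/-- The number of `n`-step self-avoiding walks from the origin. -/
noncomputable def c (n : ℕ) : ℕ := (walks n).ncard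

/-- The walk stays in a strip of width `h`: its lateral coordinates `x + 3 y` differ by at most
`h`. (For the honeycomb lattice with unit edges, `x + 3 y` is `4 / √3` times the Euclidean
coordinate orthogonal to one of the three edge directions, plus `0` or `1`.) -/
def InStrip (h : ℕ) {n : ℕ} (ω : Fin (n + 1) → ℤ × ℤ) : Prop :=
  ∀ i j : Fin (n + 1), ((ω i).1 + 3 * (ω i).2) - ((ω j).1 + 3 * (ω j).2) ≤ (h : ℤ)

/-- The number of `n`-step self-avoiding walks which stay in a strip of width `h`. -/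
noncomputable def s (h n : ℕ) : ℕ := {ω | ω ∈ walks n ∧ InStrip h ω}.ncard

/-- The probability that the uniform `n`-step self-avoiding walk stays in a strip of width `h`. -/
noncomputable def P (h n : ℕ) : ℝ := (s h n : ℝ) / c n

/-- The connective constant of the honeycomb lattice. -/
noncomputable def μ : ℝ := Real.sqrt (2 + Real.sqrt 2)

open Pool.Agent.H315.HexS H978R2.Hex

theorem walks_eq (n : ℕ) : walks n = saws n := by
  rw [saws_eq]
  rfl

theorem c_eq (n : ℕ) : c n = (Wk n).ncard := by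
  unfold c
  rw [walks_eq, Wk_ncard]

theorem s_eq (h n : ℕ) : s h n = (St n h).ncard := by
  have e : St n h = ex '' {ω : Fin (n + 1) → ℤ × ℤ | ω ∈ walks n ∧ InStrip h ω} := by
    ext f
    constructor
    · rintro ⟨h1, h2⟩
      have h3 := h1
      rw [Wk_eq] at h3
      obtain ⟨ω, hω, rfl⟩ := h3
      refine ⟨ω, ⟨by rw [walks_eq]; exact hω, ?_⟩, rfl⟩
      intro i j
      have := h2 i (by omega) j (by omega)
      rw [ex_of, ex_of] at this
      exact this
    · rintro ⟨ω, ⟨h1, h2⟩, rfl⟩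
      rw [walks_eq] at h1
      refine ⟨by rw [Wk_eq]; exact ⟨ω, h1, rfl⟩, ?_⟩
      intro a ha b hb
      have := h2 ⟨a, by omega⟩ ⟨b, by omega⟩
      have e1 := ex_of ω ⟨a, by omega⟩
      have e2 := ex_of ω ⟨b, by omega⟩
      simp only at e1 e2
      rw [e1, e2]
      exact this
  unfold s
  rw [e, Set.ncard_image_of_injective _ ex_inj]

/-- **Theorem.** There is `K > 0` such that, with `μ = √(2 + √2)`:
(1) for all `n ≥ 2`, `h ≥ 1`: `P h n ≤ exp (K (log n)² - n / (100 h²))`;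
(2) for all `n ≥ 2`, `h ≥ K`: `P h n ≥ exp (-K ((log n)² + (log h)² + n (log h)² / h))`;
(3) for all `h ≥ K` the limit `ν` of `s h n ^ (1/n)` exists, it is positive, and
`1 / (100 h²) ≤ log (μ / ν) ≤ K (log h)² / h`. -/
theorem result : ∃ K : ℝ, 0 < K ∧
    (∀ n h : ℕ, 2 ≤ n → 1 ≤ h →
      P h n ≤ Real.exp (K * Real.log n ^ 2 - n / (100 * (h : ℝ) ^ 2))) ∧
    (∀ n h : ℕ, 2 ≤ n → K ≤ h →
      Real.exp (-(K * (Real.log n ^ 2 + Real.log h ^ 2 + n * (Real.log h ^ 2 / h)))) ≤ P h n) ∧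
    (∀ h : ℕ, K ≤ h → ∃ ν : ℝ, 0 < ν ∧
      Tendsto (fun n : ℕ => (s h n : ℝ) ^ ((1 : ℝ) / n)) atTop (𝓝 ν) ∧
      1 / (100 * (h : ℝ) ^ 2) ≤ Real.log (μ / ν) ∧
      Real.log (μ / ν) ≤ K * (Real.log h ^ 2 / h)) := by
  obtain ⟨K0, hK0, hc⟩ := Wk_bounds
  obtain ⟨K1, hK1, hup⟩ := Pool.Agent.H315.HexS.upper
  obtain ⟨K2, hK2, hlow⟩ := lower_h
  obtain ⟨K3, hK3, hr⟩ := rate
  have hmu : (0 : ℝ) < mu0 := mu0_pos
  refine ⟨K0 + K1 + K2 + K3, by positivity, ?_, ?_, ?_⟩
  · intro n h hn hh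
    unfold P
    rw [c_eq, s_eq]
    have hc1 := (hc n hn).1
    have hp : 0 < mu0 ^ n := pow_pos hmu n
    have hcp : (0 : ℝ) < (Wk n).ncard := lt_of_lt_of_le hp hc1
    rw [div_le_iff₀ hcp]
    refine (hup n h hn hh).trans ?_
    rw [mul_comm]
    refine mul_le_mul ?_ hc1 hp.le (Real.exp_pos _).le
    apply Real.exp_le_exp.2
    have : 0 ≤ Real.log (n : ℝ) ^ 2 := sq_nonneg _
    nlinarith
  · intro n h hn hh
    unfold P
    rw [c_eq, s_eq]
    obtain ⟨hc1, hc2⟩ := hc n hn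
    have hp : 0 < mu0 ^ n := pow_pos hmu n
    have hcp : (0 : ℝ) < (Wk n).ncard := lt_of_lt_of_le hp hc1
    rw [le_div_iff₀ hcp]
    refine le_trans ?_ (hlow h n (by linarith))
    refine (mul_le_mul_of_nonneg_left hc2 (Real.exp_pos _).le).trans ?_
    rw [mul_left_comm, ← Real.exp_add]
    apply mul_le_mul_of_nonneg_left _ hp.le
    apply Real.exp_le_exp.2
    have a1 : 0 ≤ Real.log (n : ℝ) ^ 2 := sq_nonneg _
    have a2 : 0 ≤ Real.log (h : ℝ) ^ 2 := sq_nonneg _
    have a3 : 0 ≤ (n : ℝ) * (Real.log (h : ℝ) ^ 2 / h) := by positivity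
    nlinarith
  · intro h hh
    obtain ⟨ν, h1, h2, h3, h4⟩ := hr h (by linarith)
    refine ⟨ν, h1, ?_, h3, h4.trans ?_⟩
    · simp only [s_eq]
      exact h2
    · have : 0 ≤ Real.log (h : ℝ) ^ 2 / h := by positivity
      nlinarith

end Pool.Agent.Results.MP_b440f6_pr.StripConnectiveConstants
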